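import Pool.Agent.Lib.Tate.R.R1.N4

/-!
# C42 (MP_071d69_gt), block T3 (helper20): relation r1

`cS f : StR E` for `f : E.L C C`: the class in the localised stable ring (Bott level `Empty`).
`lamS = cS (realL (PD.bas fun _ : Unit => 1))`.  Main result `r1 : 1 + lamS + lamS^2 + lamS^3 = 0`.
-/

set_option linter.unusedSectionVars false

open Topology unitInterval Filter Set
open scoped Topology.Homotopy ZeroAtInfty OnePoint

noncomputable section

namespace Pool.Agent.Tate

open T2

section cS

variable {E : CSRS} {P Q R A B C D C' : Type} [Fintype A] [DecidableEq A] [Fintype B]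
  [DecidableEq B] [Fintype C] [DecidableEq C] [Fintype C'] [DecidableEq C']

/-- The bijection of the coordinates. -/
def emC (C : Type) : C ≃ (Empty × Fin 3) ⊕ C where
  toFun := Sum.inr
  invFun := Sum.elim (fun p => p.1.elim) id
  left_inv _ := rfl
  right_inv := by
    rintro (⟨a, i⟩ | c)
    · exact a.elim
    · rfl

/-- The bijection of the levels. -/
def emL (C : Type) : C ≃ Empty ⊕ C where
  toFun := Sum.inr
  invFun := Sum.elim (fun p => p.elim) id
  left_inv _ := rfl
  right_inv := by
    rintro (a | c)
    · exact a.elim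
    · rfl

/-- The class in the stable ring of a representative of degree zero. -/
def cS (f : E.L C C) : StR E := StR.c (lrho (emC C) (emL C) (inc f))

theorem cS_homotopic {f g : E.L C C} (h : GenLoop.Homotopic f g) : cS f = cS g :=
  StR.c_homotopic (relab_homotopic _ (push_homotopic _ (inc_homotopic h)))

theorem lrho_congr {e e' : P ≃ Q} {a a' : A ≃ B} (h : e = e') (h' : a = a') (f : E.L P A) :
    lrho e a f = lrho e' a' f := by rw [h, h']

theorem lrho_transAt [DecidableEq P] [DecidableEq Q] (e : P ≃ Q) (a : A ≃ B) (i : P)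
    (f g : E.L P A) : lrho e a (GenLoop.transAt i f g) =
      GenLoop.transAt (e i) (lrho e a f) (lrho e a g) := by
  unfold lrho
  have h : CSRS.push a (GenLoop.transAt i f g) =
      GenLoop.transAt i (CSRS.push a f) (CSRS.push a g) :=
    post_transAt (mapC E a) (E.map_pt a) i f g
  rw [h, relab_transAt]

theorem cS_transAt (i : C) (f g : E.L C C) :
    cS (GenLoop.transAt i f g) = cS f + cS g := by
  unfold cS
  rw [inc_transAt, lrho_transAt, StR.c_transAt]

theorem cS_const [Nonempty C] : cS (GenLoop.const : E.L C C) = 0 := by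
  have h : lrho (emC C) (emL C) (inc (GenLoop.const : E.L C C)) = GenLoop.const := by
    ext s
    exact E.cp.map_pt _
  unfold cS
  rw [h, StR.c_const]

theorem bott_empty (s : Empty × Fin 3 → I) :
    E.bott Empty s = E.cp.unit Empty (Empty.elim : Empty → I) := by
  show Sm.mk (E.unit Empty _) (PL.tens _) = Sm.mk (E.unit Empty _) (PL.one Empty)
  congr 1
  · congr 1
    funext i
    exact i.elim

variable [hF : Fact (SS E)]

theorem cS_prod (f : E.L C C) (g : E.L C' C') : cS (CSRS.prod f g) = cS f * cS g := by
  unfold cS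
  rw [← StR.c_prod, ← StR.c_grho (Equiv.emptySum Empty Empty) (Equiv.refl (C ⊕ C')), ← lrho_prod,
    ← lrho_trans, ← lrho_trans, inc_prod]
  congr 1
  refine lrho_congr ?_ ?_ _
  · ext (c | c) <;> rfl
  · ext (c | c) <;> rfl

theorem cS_unit : cS (E.unit C) = 1 := by
  have h : lrho (emC C) (emL C) (inc (E.unit C)) = CSRS.prod (E.bott Empty) (E.cp.unit C) := by
    ext t
    show E.cp.map (emL C) (E.cp.unit C fun i => t (Sum.inr i)) =
      E.cp.mul (E.bott Empty _) (E.cp.unit C fun i => t (Sum.inr i))
    rw [bott_empty, E.cp.unit_mul, E.cp.map_unit]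
    congr 1
    funext i
    rcases i with i | i
    · exact i.elim
    · rfl
  unfold cS
  rw [h, StR.c_unit]

end cS

/-- The additivity of `cS` for sums of labels. -/
theorem cS_add {C : Type} [Fintype C] [DecidableEq C] (i : C) (f g h : WS.L C C)
    (hfg : ∀ s s', (∀ j, j ≠ i → s j = s' j) → ∀ y y', (toC f s).P y * (toC g s').P y' = 0)
    (hh : ∀ s y, (toC h s).P y = (toC f s).P y + (toC g s).P y) : cS h = cS f + cS g := by
  rw [← cS_homotopic (add_homotopic i f g h hfg hh), cS_transAt]

theorem cS_realL_add {C : Type} [Fintype C] [DecidableEq C] [Nonempty C] (p q r : PD C)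
    (h : p.1 * q.1 = 0) (hr : r.1 = p.1 + q.1) :
    cS (realL r) = cS (realL p) + cS (realL q) := by
  classical
  refine cS_add (Classical.arbitrary C) _ _ _ ?_ ?_
  · intro s s' _ y y'
    show (oneW (rhoP s) (rotP_rhoP s) p).1.P y * (oneW (rhoP s') (rotP_rhoP s') q).1.P y' = 0
    rw [oneW_P, oneW_P]
    split_ifs
    · exact h
    · exact mul_zero _
    · exact zero_mul _
    · exact mul_zero _
  · intro s y
    show (oneW (rhoP s) (rotP_rhoP s) r).1.P y = (oneW (rhoP s) (rotP_rhoP s) p).1.P y +
      (oneW (rhoP s) (rotP_rhoP s) q).1.P y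
    rw [oneW_P, oneW_P, oneW_P]
    split_ifs
    · exact hr
    · rw [add_zero]

instance factWS : Fact (SS WS) := ⟨WS_SS⟩

namespace R1

/-- One point with the label `E_kk`. -/
def lam (k : ZMod 4) : WS.L Unit Unit := realL (PD.bas fun _ : Unit => k)

/-- The classes of `lam k`. -/
def L (k : ZMod 4) : StR WS := cS (lam k)

theorem L_zero : L 0 = 1 := by
  unfold L lam
  rw [realL_unit, cS_unit]

theorem L_mul (j k : ZMod 4) : L j * L k = L (j + k) := by
  have h1 : ∀ j k : ZMod 4, L j * L k =
      cS (realL (PD.bas (Sum.elim (fun _ : Unit => j) fun _ : Unit => k))) := by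
    intro j k
    unfold L lam
    rw [← cS_prod, realL_mul, PD.mul_bas]
  have h2 : chi (Sum.elim (fun _ : Unit => j) fun _ : Unit => k) =
      chi (Sum.elim (fun _ : Unit => j + k) fun _ : Unit => (0 : ZMod 4)) := by
    rw [chi_sum, chi_sum]
    show chi (fun _ : Unit => j) * chi (fun _ : Unit => k) =
      chi (fun _ : Unit => j + k) * chi (fun _ : Unit => (0 : ZMod 4))
    rw [chi_unit, chi_unit, chi_unit, chi_unit, e_zero, mul_one, e_add]
  rw [h1, cS_homotopic (realL_bas h2), ← h1, L_zero, mul_one]

theorem sum_L : L 0 + L 1 + L 2 + L 3 = 0 := by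
  have key : ∀ (S : Finset (Unit → ZMod 4)) (k : ZMod 4), (fun _ => k) ∉ S →
      cS (realL (PD.dia (insert (fun _ => k) S))) = L k + cS (realL (PD.dia S)) := by
    intro S k hk
    refine cS_realL_add (PD.bas fun _ => k) (PD.dia S) _ ?_ ?_
    · show (PD.dia {fun _ : Unit => k}).1 * (PD.dia S).1 = 0
      rw [PD.dia_val, PD.dia_val, Matrix.diagonal_mul_diagonal]
      ext a b
      by_cases hab : a = b
      · subst hab
        rw [Matrix.diagonal_apply_eq, Matrix.zero_apply]
        by_cases ha : a = fun _ => k
        · subst ha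
          rw [if_neg hk, mul_zero]
        · rw [if_neg (by simpa using ha), zero_mul]
      · rw [Matrix.diagonal_apply_ne _ hab, Matrix.zero_apply]
    · show (PD.dia (insert (fun _ => k) S)).1 = (PD.dia {fun _ : Unit => k}).1 + (PD.dia S).1
      rw [PD.dia_val, PD.dia_val, PD.dia_val, Matrix.diagonal_add]
      congr 1
      funext a
      by_cases ha : a = fun _ => k
      · subst ha
        rw [if_neg hk]
        simp
      · have h1 : a ∉ ({fun _ : Unit => k} : Finset (Unit → ZMod 4)) := by simpa using ha
        rw [if_neg h1, zero_add]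
        by_cases hS : a ∈ S
        · simp [hS]
        · rw [if_neg hS, if_neg]
          rw [Finset.mem_insert]
          rintro (h' | h')
          · exact ha h'
          · exact hS h'
  have inj : ∀ j k : ZMod 4, j ≠ k → (fun _ : Unit => j) ≠ fun _ => k := fun j k h h' =>
    h (congrFun h' ())
  have e3 : cS (realL (PD.dia {fun _ : Unit => (3 : ZMod 4)})) = L 3 := rfl
  have e2 := key {fun _ => 3} 2 (by
    rw [Finset.mem_singleton]
    exact inj _ _ (by decide))
  have e1 := key (insert (fun _ => 2) {fun _ => 3}) 1 (by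
    rw [Finset.mem_insert, Finset.mem_singleton, not_or]
    exact ⟨inj _ _ (by decide), inj _ _ (by decide)⟩)
  have e0 := key (insert (fun _ => 1) (insert (fun _ => 2) {fun _ => 3})) 0 (by
    rw [Finset.mem_insert, Finset.mem_insert, Finset.mem_singleton, not_or, not_or]
    exact ⟨inj _ _ (by decide), inj _ _ (by decide), inj _ _ (by decide)⟩)
  have hu : (insert (fun _ => 0) (insert (fun _ => 1) (insert (fun _ => 2) {fun _ => 3})) :
      Finset (Unit → ZMod 4)) = Finset.univ := by
    ext a
    have ha : ∀ k : ZMod 4, (a = fun _ => k) ↔ a () = k := by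
      intro k
      constructor
      · intro h
        exact congrFun h ()
      · intro h
        funext u
        exact h
    simp only [Finset.mem_insert, Finset.mem_singleton, Finset.mem_univ, iff_true, ha]
    generalize a () = k
    revert k
    decide
  have hn : cS (realL (PDone Unit)) = 0 := by
    rw [cS_homotopic null_one, cS_const]
  have hd : PDone Unit = PD.dia Finset.univ := rfl
  rw [hd, ← hu, e0, e1, e2, e3] at hn
  rw [← hn]
  ring

/-- The class `l` of the character. -/
def lamS : StR WS := L 1

/-- **r1.** -/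
theorem r1 : 1 + lamS + lamS ^ 2 + lamS ^ 3 = 0 := by
  have h2 : lamS ^ 2 = L 2 := by
    rw [sq]
    unfold lamS
    rw [L_mul]
    rfl
  have h3 : lamS ^ 3 = L 3 := by
    rw [pow_succ, h2]
    unfold lamS
    rw [L_mul]
    rfl
  rw [h3, h2, ← sum_L, L_zero]
  rfl

end R1

end Pool.Agent.Tate
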