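import Pool.Agent.Lib.Tate.R.Lam

/-!
# C42 (MP_071d69_gt), block T3 (helper20): the free orbit, `{(rho t, 0); 1} ~ const`

`A = Unit`.  `e : ZMod 4 → ℂ` is the character `k ↦ i^k`; `P_k` is the projection to the vector
`(1/2) ∑_c e (k c) δ_c`.  The points `(rho t, r e k)` with the labels `P_k` form an invariant
configuration; `r = 0` gives `{(rho t, 0); 1}`, `r = ∞` the empty configuration.
-/

set_option linter.unusedSectionVars false

open Topology unitInterval Filter Set
open scoped Topology.Homotopy ZeroAtInfty OnePoint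

noncomputable section

namespace Pool.Agent.Tate.R1

/-- The character `k ↦ i^k` of `ℤ/4`. -/
def e (k : ZMod 4) : ℂ := Complex.I ^ k.val

theorem e_zero : e 0 = 1 := by
  unfold e
  simp

theorem e_one : e 1 = Complex.I := by
  unfold e
  have : (1 : ZMod 4).val = 1 := rfl
  rw [this, pow_one]

theorem e_two : e 2 = -1 := by
  unfold e
  have : (2 : ZMod 4).val = 2 := rfl
  rw [this, Complex.I_sq]

theorem e_three : e 3 = -Complex.I := by
  unfold e
  have : (3 : ZMod 4).val = 3 := rfl
  rw [this, pow_succ, Complex.I_sq]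
  ring

theorem e_add (x y : ZMod 4) : e (x + y) = e x * e y := by
  have h4 : Complex.I ^ 4 = 1 := Complex.I_pow_four
  unfold e
  rw [← pow_add, ZMod.val_add]
  conv_rhs => rw [← Nat.mod_add_div (x.val + y.val) 4, pow_add, pow_mul, h4, one_pow, mul_one]

theorem e_conj (x : ZMod 4) : (starRingEnd ℂ) (e x) * e x = 1 := by
  unfold e
  rw [map_pow, ← mul_pow, Complex.conj_I]
  simp

theorem e_neg (x : ZMod 4) : e (-x) = (starRingEnd ℂ) (e x) := by
  have h1 : e x * e (-x) = 1 := by
    rw [← e_add, add_neg_cancel, e_zero]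
  calc e (-x) = ((starRingEnd ℂ) (e x) * e x) * e (-x) := by rw [e_conj, one_mul]
    _ = (starRingEnd ℂ) (e x) := by rw [mul_assoc, h1, mul_one]

theorem norm_e (x : ZMod 4) : ‖e x‖ = 1 := by
  unfold e
  rw [norm_pow, Complex.norm_I, one_pow]

theorem sum_e (d : ZMod 4) : ∑ c : ZMod 4, e (d * c) = if d = 0 then 4 else 0 := by
  have h : ∀ f : ZMod 4 → ℂ, ∑ c : ZMod 4, f c = f 0 + f 1 + f 2 + f 3 := fun f =>
    Fin.sum_univ_four f
  rw [h]
  have hd : d = 0 ∨ d = 1 ∨ d = 2 ∨ d = 3 := by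
    revert d
    decide
  rcases hd with rfl | rfl | rfl | rfl
  · rw [if_pos rfl]
    simp only [zero_mul, e_zero]
    norm_num
  · rw [if_neg (by decide)]
    have h1 : (1 : ZMod 4) * 0 = 0 := rfl
    have h2 : (1 : ZMod 4) * 1 = 1 := rfl
    have h3 : (1 : ZMod 4) * 2 = 2 := rfl
    have h4 : (1 : ZMod 4) * 3 = 3 := rfl
    rw [h1, h2, h3, h4, e_zero, e_one, e_two, e_three]
    ring
  · rw [if_neg (by decide)]
    have h1 : (2 : ZMod 4) * 0 = 0 := rfl
    have h2 : (2 : ZMod 4) * 1 = 2 := rfl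
    have h3 : (2 : ZMod 4) * 2 = 0 := rfl
    have h4 : (2 : ZMod 4) * 3 = 2 := rfl
    rw [h1, h2, h3, h4, e_zero, e_two]
    ring
  · rw [if_neg (by decide)]
    have h1 : (3 : ZMod 4) * 0 = 0 := rfl
    have h2 : (3 : ZMod 4) * 1 = 3 := rfl
    have h3 : (3 : ZMod 4) * 2 = 2 := rfl
    have h4 : (3 : ZMod 4) * 3 = 1 := rfl
    rw [h1, h2, h3, h4, e_zero, e_one, e_two, e_three]
    ring

theorem chi_unit (a : Unit → ZMod 4) : chi a = e (a ()) := by
  unfold chi e
  simp

/-- The projection to the vector `(1/2) ∑_c e (k c) δ_c`. -/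
def PP (k : ZMod 4) : Mt Unit (ZMod 4) := fun a b => 1 / 4 * e (k * (a () - b ()))

theorem sum_unit (f : (Unit → ZMod 4) → ℂ) : ∑ a, f a = ∑ c : ZMod 4, f fun _ => c :=
  Fintype.sum_equiv (Equiv.funUnique Unit (ZMod 4)) _ _ fun a => by
    congr 1

theorem PP_mul (k l : ZMod 4) : PP k * PP l = if k = l then PP k else 0 := by
  ext a b
  rw [Matrix.mul_apply, sum_unit]
  have h : ∀ c : ZMod 4, PP k a (fun _ => c) * PP l (fun _ => c) b =
      1 / 16 * e (k * a () - l * b ()) * e ((l - k) * c) := by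
    intro c
    show 1 / 4 * e (k * (a () - c)) * (1 / 4 * e (l * (c - b ()))) = _
    have : (k * a () - l * b ()) + (l - k) * c = k * (a () - c) + l * (c - b ()) := by ring
    rw [mul_assoc (1 / 16 : ℂ), ← e_add, this, e_add]
    ring
  rw [Finset.sum_congr rfl fun c _ => h c, ← Finset.mul_sum, sum_e]
  by_cases hkl : k = l
  · subst hkl
    rw [if_pos (sub_self k), if_pos rfl]
    show _ = 1 / 4 * e (k * (a () - b ()))
    rw [mul_sub]
    ring
  · rw [if_neg (fun h' => hkl (sub_eq_zero.1 h').symm), if_neg hkl]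
    simp

theorem OF_PP : OF PP where
  herm k := by
    ext a b
    rw [Matrix.conjTranspose_apply]
    show star (1 / 4 * e (k * (b () - a ()))) = 1 / 4 * e (k * (a () - b ()))
    have h : k * (a () - b ()) = -(k * (b () - a ())) := by ring
    rw [h, e_neg, star_mul']
    congr 1
    simp
  idem k := by rw [PP_mul, if_pos rfl]
  orth k l h := by rw [PP_mul, if_neg h]

theorem sum_PP : ∑ k, PP k = 1 := by
  ext a b
  rw [Matrix.sum_apply]
  show ∑ k : ZMod 4, 1 / 4 * e (k * (a () - b ())) = _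
  rw [← Finset.mul_sum]
  have h : ∀ k : ZMod 4, e (k * (a () - b ())) = e ((a () - b ()) * k) := fun k => by
    rw [mul_comm]
  rw [Finset.sum_congr rfl fun k _ => h k, sum_e]
  by_cases hab : a = b
  · subst hab
    rw [sub_self, if_pos rfl, Matrix.one_apply_eq]
    norm_num
  · rw [Matrix.one_apply_ne hab, if_neg, mul_zero]
    intro h'
    apply hab
    funext u
    exact sub_eq_zero.1 h'

/-- `(1 + τ) / 2`. -/
def hf (t : I) : I := ⟨(1 + (t : ℝ)) / 2, by linarith [t.2.1], by linarith [t.2.2]⟩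

theorem continuous_hf : Continuous hf := by
  unfold hf
  fun_prop

theorem hf_zero : rho (hf 0) = 0 := by
  unfold rho hf
  simp

theorem hf_one : hf 1 = 1 := by
  apply Subtype.ext
  show (1 + ((1 : I) : ℝ)) / 2 = 1
  norm_num

theorem hf_ne_zero (t : I) : hf t ≠ 0 := by
  intro h
  have h1 : (1 + (t : ℝ)) / 2 = 0 := congrArg Subtype.val h
  linarith [t.2.1]

theorem hf_ne_one {t : I} (ht : t ≠ 1) : hf t ≠ 1 := by
  intro h
  have h1 : (1 + (t : ℝ)) / 2 = 1 := congrArg Subtype.val h
  exact ht (Subtype.ext (by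
    show (t : ℝ) = 1
    linarith))

/-- The finite value of the point. -/
def yv (k : ZMod 4) (q : I × (Unit → I)) : Unit → VV := fun _ =>
  (rho (q.2 ()), (rho (hf q.1) : ℂ) * e k)

open Classical in
/-- The `k`-th point. -/
def yk (q : I × (Unit → I)) (k : ZMod 4) : OnePoint (Unit → VV) :=
  if q.2 ∈ Cube.boundary Unit ∨ q.1 = 1 then ∞ else (yv k q : OnePoint (Unit → VV))

theorem yk_infty {q : I × (Unit → I)} (h : q.2 ∈ Cube.boundary Unit ∨ q.1 = 1) (k : ZMod 4) :
    yk q k = ∞ := if_pos h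

theorem yk_coe {q : I × (Unit → I)} (h : ¬ (q.2 ∈ Cube.boundary Unit ∨ q.1 = 1)) (k : ZMod 4) :
    yk q k = (yv k q : OnePoint (Unit → VV)) := if_neg h

theorem norm_yv (k : ZMod 4) (q : I × (Unit → I)) (M : ℝ)
    (h : M ≤ |rho (q.2 ())| ∨ M ≤ |rho (hf q.1)|) : M ≤ ‖yv k q‖ := by
  have h5 := norm_le_pi_norm (yv k q) ()
  refine le_trans ?_ h5
  have h6 : ‖(yv k q ()).1‖ ≤ ‖yv k q ()‖ := norm_fst_le _
  have h7 : ‖(yv k q ()).2‖ ≤ ‖yv k q ()‖ := norm_snd_le _
  rcases h with h | h
  · exact h.trans h6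
  · refine h.trans (le_trans ?_ h7)
    show _ ≤ ‖(rho (hf q.1) : ℂ) * e k‖
    rw [norm_mul, norm_e, mul_one, Complex.norm_real, Real.norm_eq_abs]

theorem continuous_yk (k : ZMod 4) : Continuous fun q => yk q k := by
  rw [continuous_iff_continuousAt]
  intro q₀
  by_cases h : q₀.2 ∈ Cube.boundary Unit ∨ q₀.1 = 1
  · rw [ContinuousAt, yk_infty h, OnePoint.hasBasis_nhds_infty.tendsto_right_iff]
    rintro K ⟨-, hK⟩
    obtain ⟨M, hM⟩ := hK.isBounded.exists_norm_le
    have key : ∀ᶠ q in 𝓝 q₀, ¬ (q.2 ∈ Cube.boundary Unit ∨ q.1 = 1) →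
        M + 1 ≤ |rho (q.2 ())| ∨ M + 1 ≤ |rho (hf q.1)| := by
      rcases h with ⟨a, ha⟩ | h
      · have h1 := Wi.pRh.2 (q₀.2 a) ha (M + 1)
        have hc : Continuous fun q : I × (Unit → I) => q.2 a :=
          (continuous_apply a).comp continuous_snd
        filter_upwards [hc.continuousAt.eventually h1] with q hq hn
        left
        exact hq (fun h' => hn (Or.inl ⟨a, Or.inl h'⟩)) fun h' => hn (Or.inl ⟨a, Or.inr h'⟩)
      · have h1 := Wi.pRh.2 (hf q₀.1) (Or.inr (by rw [h, hf_one])) (M + 1)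
        have hc : Continuous fun q : I × (Unit → I) => hf q.1 := continuous_hf.comp continuous_fst
        filter_upwards [hc.continuousAt.eventually h1] with q hq hn
        right
        exact hq (hf_ne_zero _) (hf_ne_one fun h' => hn (Or.inr h'))
    filter_upwards [key] with q hq
    by_cases hn : q.2 ∈ Cube.boundary Unit ∨ q.1 = 1
    · rw [yk_infty hn]
      exact Or.inr rfl
    · rw [yk_coe hn]
      refine Or.inl ⟨_, ?_, rfl⟩
      intro hmem
      have h1 := hM _ hmem
      have h2 := norm_yv k q _ (hq hn)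
      linarith
  · have ho : ∀ᶠ q in 𝓝 q₀, ¬ (q.2 ∈ Cube.boundary Unit ∨ q.1 = 1) := by
      have hc : IsClosed {q : I × (Unit → I) | q.2 ∈ Cube.boundary Unit ∨ q.1 = 1} :=
        (Wi.Un.isClosed_boundary.preimage continuous_snd).union
          (isClosed_eq continuous_fst continuous_const)
      exact hc.isOpen_compl.mem_nhds h
    have h1 : (fun q => yk q k) =ᶠ[𝓝 q₀] fun q => (yv k q : OnePoint (Unit → VV)) := by
      filter_upwards [ho] with q hq
      exact yk_coe hq k
    refine ContinuousAt.congr ?_ h1.symm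
    refine OnePoint.continuous_coe.continuousAt.comp ?_
    rw [continuousAt_pi]
    intro u
    have hop : IsOpen {t : I | t ≠ 0 ∧ t ≠ 1} := isOpen_ne.inter isOpen_ne
    have hb : q₀.2 () ≠ 0 ∧ q₀.2 () ≠ 1 :=
      ⟨fun h' => h (Or.inl ⟨(), Or.inl h'⟩), fun h' => h (Or.inl ⟨(), Or.inr h'⟩)⟩
    have hb2 : hf q₀.1 ≠ 0 ∧ hf q₀.1 ≠ 1 := ⟨hf_ne_zero _, hf_ne_one fun h' => h (Or.inr h')⟩
    refine ContinuousAt.prodMk ?_ ?_
    · exact ContinuousAt.comp (g := rho) (f := fun q : I × (Unit → I) => q.2 ())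
        (Wi.pRh.1.continuousAt (hop.mem_nhds hb))
        ((continuous_apply ()).comp continuous_snd).continuousAt
    · refine ContinuousAt.mul ?_ continuousAt_const
      refine Complex.continuous_ofReal.continuousAt.comp ?_
      exact ContinuousAt.comp (g := rho) (f := fun q : I × (Unit → I) => hf q.1)
        (Wi.pRh.1.continuousAt (hop.mem_nhds hb2))
        (continuous_hf.comp continuous_fst).continuousAt

theorem EqF_yk (q : I × (Unit → I)) : EqF (Equiv.addRight (1 : ZMod 4)) (yk q) PP where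
  pts k := by
    show yk q (k + 1) = _
    by_cases h : q.2 ∈ Cube.boundary Unit ∨ q.1 = 1
    · rw [yk_infty h, yk_infty h, rotP_infty]
    · rw [yk_coe h, yk_coe h, rotP_coe, OnePoint.coe_eq_coe]
      funext u
      show (rho (q.2 ()), (rho (hf q.1) : ℂ) * e (k + 1)) =
        (rho (q.2 ()), Complex.I * ((rho (hf q.1) : ℂ) * e k))
      rw [e_add, e_one]
      congr 1
      ring
  lab k a b := by
    show 1 / 4 * e ((k + 1) * (a () - b ())) =
      chi a * (starRingEnd ℂ) (chi b) * (1 / 4 * e (k * (a () - b ())))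
    rw [chi_unit, chi_unit, ← e_neg, add_mul, one_mul, e_add, sub_eq_add_neg, e_add (a ())]
    ring

/-- The identity as a label. -/
def PDone (A : Type) [Fintype A] [DecidableEq A] : PD A := PD.dia Finset.univ

theorem PDone_val (A : Type) [Fintype A] [DecidableEq A] : (PDone A).1 = 1 := by
  show Matrix.diagonal _ = 1
  simp

/-- **N4.** The class of `{(rho t, 0); 1}` is trivial. -/
theorem null_one : GenLoop.Homotopic (realL (PDone Unit)) GenLoop.const := by
  classical
  refine T2.homotopic_of (fun q => famW (Equiv.addRight (1 : ZMod 4)) (yk q) PP OF_PP (EqF_yk q))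
    (continuous_iff_continuousAt.2 fun q => continuousAt_famW (fun _ => OF_PP) EqF_yk
      (fun k => (continuous_yk k).continuousAt) fun _ _ => continuousAt_const) ?_ ?_ ?_
  · intro s
    show famW _ _ _ OF_PP (EqF_yk (0, s)) = oneW (rhoP s) (rotP_rhoP s) (PDone Unit)
    refine WX.ext fun v => ?_
    rw [oneW_P, PDone_val]
    show (fam (yk (0, s)) PP OF_PP).P v = _
    rw [fam_P]
    have hy : ∀ k, yk (0, s) k = rhoP s := by
      intro k
      by_cases h : s ∈ Cube.boundary Unit
      · rw [yk_infty (Or.inl h), rhoP_bdry h]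
      · have h0 : ¬ (s ∈ Cube.boundary Unit ∨ (0 : I) = 1) := by
          rintro (h' | h')
          · exact h h'
          · exact zero_ne_one h'
        rw [yk_coe h0, rhoP_of h, OnePoint.coe_eq_coe]
        funext u
        show (rho (s ()), (rho (hf 0) : ℂ) * e k) = (rho (s u), (0 : ℂ))
        rw [hf_zero]
        simp
    simp only [hy]
    by_cases hv : rhoP s = (v : OnePoint (Unit → VV))
    · rw [if_pos hv]
      simp only [hv, Finset.filter_true]
      exact sum_PP
    · rw [if_neg hv]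
      simp [hv]
  · intro s
    exact famW_infty _ OF_PP (EqF_yk (1, s)) fun k => yk_infty (Or.inr rfl) k
  · intro t s hs
    exact famW_infty _ OF_PP (EqF_yk (t, s)) fun k => yk_infty (Or.inl hs) k

end Pool.Agent.Tate.R1
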